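import Mathlib
import Pool.Agent.H791R3.Lattice

set_option autoImplicit false

/-! Congruent triangles spanned by `n` points of 3-space: the lower bound
`n ^ (4/3) * log log n`, for every lattice triangle. -/

namespace Pool.Agent.Results.MP_136f1a_co.LogLog

open Filter

/-- Euclidean 3-space -/
abbrev E3 := EuclideanSpace ℝ (Fin 3)

/-- `T` and `T'` are congruent: some isometry of `ℝ³` maps `T` onto `T'`. -/
def Congruent (T T' : Finset E3) : Prop :=
  ∃ f : E3 ≃ᵢ E3, f '' (T : Set E3) = (T' : Set E3)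

/-- A triangle: three points that are not collinear. -/
def IsTriangle (T : Finset E3) : Prop := T.card = 3 ∧ ¬ Collinear ℝ (T : Set E3)

/-- the number of triangles spanned by `P` that are congruent to `T`. -/
noncomputable def copies (P T : Finset E3) : ℕ := by
  classical
  exact ((P.powersetCard 3).filter fun S => Congruent T S).card

/-- `T3 n`: the largest number of pairwise congruent triangles spanned by `n` points. -/
noncomputable def T3 (n : ℕ) : ℕ :=
  sSup {m : ℕ | ∃ P T : Finset E3, P.card = n ∧ IsTriangle T ∧ copies P T = m}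

theorem copies_le_T3 (P T : Finset E3) (hT : IsTriangle T) : copies P T ≤ T3 P.card := by
  classical
  refine le_csSup ⟨2 ^ P.card, ?_⟩ ⟨P, T, rfl, hT, rfl⟩
  rintro m ⟨P', T', h1, h2, rfl⟩
  unfold copies
  refine (Finset.card_le_card (Finset.filter_subset _ _)).trans ?_
  rw [Finset.card_powersetCard, ← h1]
  exact Nat.choose_le_two_pow _ _

theorem congruent_card {T T' : Finset E3} (h : Congruent T T') : T'.card = T.card := by
  classical
  obtain ⟨g, hg⟩ := h
  have h1 : T.image g = T' := by
    apply Finset.coe_injective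
    rw [Finset.coe_image, hg]
  rw [← h1, Finset.card_image_of_injective _ g.injective]

theorem IsTriangle.aff {T : Finset E3} (hT : IsTriangle T) :
    AffineIndependent ℝ (fun x : T => (x : E3)) := by
  classical
  obtain ⟨a, b, c, hab, hac, hbc, rfl⟩ := Finset.card_eq_three.1 hT.1
  have h1 : AffineIndependent ℝ ![a, b, c] := by
    rw [affineIndependent_iff_not_collinear_set]
    have := hT.2
    push_cast at this
    exact this
  have h2 := h1.range
  have h3 : Set.range ![a, b, c] = ((({a, b, c} : Finset E3)) : Set E3) := by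
    push_cast
    ext x
    simp only [Matrix.range_cons, Matrix.range_empty, Set.union_empty, Set.mem_union,
      Set.mem_singleton_iff, Set.mem_insert_iff]
  rw [h3] at h2
  exact h2

/-- the right isosceles triangle -/
noncomputable def tri : Finset E3 :=
  ({0, Pi.single 0 1, Pi.single 1 1} : Finset (Fin 3 → ℤ)).image (Pool.Agent.H791R3.emb 1)

theorem tri_triangle : IsTriangle tri := by
  classical
  constructor
  · unfold tri
    rw [Finset.card_image_of_injective _ (Pool.Agent.H791R3.emb_inj 1 one_ne_zero)]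
    decide
  · intro h
    have h0 : (0 : E3) ∈ (tri : Set E3) := by
      simp only [tri, Finset.coe_image, Set.mem_image, Finset.mem_coe]
      exact ⟨0, by simp, by ext j; simp [Pool.Agent.H791R3.emb]⟩
    rw [collinear_iff_of_mem h0] at h
    obtain ⟨v, hv⟩ := h
    obtain ⟨r1, h1⟩ := hv (Pool.Agent.H791R3.emb 1 (Pi.single 0 1)) (by
      simp only [tri, Finset.coe_image, Set.mem_image, Finset.mem_coe]
      exact ⟨_, by simp, rfl⟩)
    obtain ⟨r2, h2⟩ := hv (Pool.Agent.H791R3.emb 1 (Pi.single 1 1)) (by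
      simp only [tri, Finset.coe_image, Set.mem_image, Finset.mem_coe]
      exact ⟨_, by simp, rfl⟩)
    have a1 := congrArg (fun v : E3 => v 0) h1
    have a2 := congrArg (fun v : E3 => v 1) h1
    have b1 := congrArg (fun v : E3 => v 0) h2
    have b2 := congrArg (fun v : E3 => v 1) h2
    simp [Pool.Agent.H791R3.emb] at a1 a2 b1 b2
    rcases a2 with a2 | a2
    · rw [a2] at a1; simp at a1
    · rw [a2] at b2; simp at b2

/-- Every triangle `T` with integer vertices has at least `c n ^ (4/3) log log n` congruent copies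
among suitable `n` points, for all large `n`; in particular `T3 n ≥ c n ^ (4/3) log log n`. -/
theorem result :
    (∀ T : Finset E3, IsTriangle T → (∀ x ∈ T, ∀ i, ∃ z : ℤ, x i = z) →
      ∃ c : ℝ, 0 < c ∧ ∀ᶠ n : ℕ in atTop, ∃ P : Finset E3, P.card = n ∧
        c * (n : ℝ) ^ (4 / 3 : ℝ) * Real.log (Real.log n) ≤ copies P T) ∧
    ∃ c : ℝ, 0 < c ∧ ∀ᶠ n : ℕ in atTop,
      c * (n : ℝ) ^ (4 / 3 : ℝ) * Real.log (Real.log n) ≤ T3 n := by
  classical
  have main : ∀ T : Finset E3, IsTriangle T → (∀ x ∈ T, ∀ i, ∃ z : ℤ, x i = z) →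
      ∃ c : ℝ, 0 < c ∧ ∀ᶠ n : ℕ in atTop, ∃ P : Finset E3, P.card = n ∧
        c * (n : ℝ) ^ (4 / 3 : ℝ) * Real.log (Real.log n) ≤ copies P T := by
    intro T hT hI
    obtain ⟨T', h1, rfl⟩ := Pool.Agent.H791R3.lattice_pattern T (by rw [hT.1]; norm_num) hT.aff hI
    obtain ⟨c, hc, h⟩ := Pool.Agent.H791R3.congr_main T' h1
    refine ⟨c, hc, ?_⟩
    filter_upwards [h] with n hn
    obtain ⟨P, 𝒮, hP, h2, h3⟩ := hn
    refine ⟨P, hP, h2.trans ?_⟩
    have h4 : 𝒮.card ≤ copies P (T'.image (Pool.Agent.H791R3.emb 1)) := by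
      unfold copies
      refine Finset.card_le_card ?_
      intro S hS
      obtain ⟨h5, g, hg⟩ := h3 S hS
      have hcon : Congruent (T'.image (Pool.Agent.H791R3.emb 1)) S := ⟨g, hg⟩
      rw [Finset.mem_filter, Finset.mem_powersetCard]
      exact ⟨⟨h5, (congruent_card hcon).trans hT.1⟩, hcon⟩
    exact_mod_cast h4
  refine ⟨main, ?_⟩
  obtain ⟨c, hc, h⟩ := main tri tri_triangle (by
    intro x hx i
    obtain ⟨z, _, rfl⟩ := Finset.mem_image.1 hx
    exact ⟨z i, by simp [Pool.Agent.H791R3.emb]⟩)
  refine ⟨c, hc, ?_⟩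
  filter_upwards [h] with n hn
  obtain ⟨P, hP, h1⟩ := hn
  refine h1.trans ?_
  have := copies_le_T3 P tri tri_triangle
  rw [hP] at this
  exact_mod_cast this

end Pool.Agent.Results.MP_136f1a_co.LogLog
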